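import Pool.Agent.Helper25.GF.Goals

/-!
# Project GF (MP_766b49_co), packet GF-DEG
-/

set_option autoImplicit false

namespace Pool.Agent.Helper89.GF

open Finset Pool.Agent.Helper25.GF

theorem ch_lt {d n : ℕ} (ω : Om d n) {a b : ℕ} (h : a ∈ ch ω b) : a < b := by
  unfold ch at h
  split_ifs at h with hb
  · obtain ⟨j, _, rfl⟩ := mem_image.1 h
    have := (ω ⟨b - 1, by omega⟩ j).isLt
    simp only at this
    omega
  · simp at h

theorem ch_card {d n : ℕ} (ω : Om d n) (b : ℕ) : (ch ω b).card ≤ d := by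
  unfold ch
  split_ifs with hb
  · exact card_image_le.trans (by simp)
  · simp

/-- **Packet GF-DEG** -/
theorem deg : Pool.Agent.Helper25.GF.DEG := by
  intro d n g ω S hS
  refine ⟨S.max' hS, S.max'_mem hS, fun B hB => ?_⟩
  have h1 : B.image (fun u : Fin (n + 1) => (u : ℕ)) ⊆ ch ω ((S.max' hS : Fin (n + 1)) : ℕ) := by
    intro x hx
    obtain ⟨u, hu, rfl⟩ := mem_image.1 hx
    obtain ⟨huS, hadj⟩ := hB u hu
    obtain ⟨_, had, _, _⟩ := hadj
    rcases had with h | h
    · exfalso
      have h2 := ch_lt ω h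
      have h3 := S.le_max' u huS
      have h4 : (u : ℕ) ≤ ((S.max' hS : Fin (n + 1)) : ℕ) := h3
      omega
    · exact h
  have h2 := card_le_card h1
  rw [card_image_of_injective B Fin.val_injective] at h2
  exact h2.trans (ch_card ω _)

end Pool.Agent.Helper89.GF
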